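import Mathlib
import Pool.Agent.P.MP_f1a348_lc.FA.Final
import Pool.Agent.P.MP_f1a348_lc.FA.All

namespace Pool.Agent.Results.MP_f1a348_lc.GroupIsoPoly

open Pool.Agent.P.MP_f1a348_lc.LI Pool.Agent.P.MP_f1a348_lc.FA

/-- One deterministic Turing machine, given the adjacency matrices of two arbitrary graphs on `n`
vertices, decides if the first is the Latin square graph of a group and is isomorphic to the
second; it runs in time `n ^ O(d + 1)` if all composition factors of that group are generated by
`d` elements. On the Latin square graphs of two groups the answer tells if the groups are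
isomorphic. -/
theorem result :
    ∃ (tm : Turing.FinTM2) (e₀ : tm.Γ tm.k₀ ≃ Bool) (e₁ : tm.Γ tm.k₁ ≃ Bool),
      (∀ k, Finite (tm.Γ k)) ∧ ∃ C : ℕ, ∀ (d n : ℕ) (X Y : SimpleGraph (Fin n)),
        (∀ (G : Type) [Group G], Nonempty (X ≃g latinGraph G) → FactorsGen d G) →
        ∃ b : Bool,
          Nonempty (Turing.TM2OutputsInTime tm ((adjBits X ++ adjBits Y).map e₀.symm)
            (Option.some ([b].map e₁.symm)) (C * (n + 1) ^ (C * (d + 1)))) ∧
          (b = true ↔ IsGroupLatin X ∧ Nonempty (X ≃g Y)) ∧
          ∀ (G H : Type) [Group G] [Group H], Nonempty (X ≃g latinGraph G) →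
            Nonempty (Y ≃g latinGraph H) → (b = true ↔ Nonempty (G ≃* H)) :=
  final isoProg

end Pool.Agent.Results.MP_f1a348_lc.GroupIsoPoly
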