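import Mathlib
import Pool.Agent.P.MP_f1a348_lc.LS.All

namespace Pool.Agent.Results.MP_f1a348_lc.LinearStringIso

open Pool.Agent.P.MP_f1a348_lc.TO Pool.Agent.P.MP_f1a348_lc.LS

/-- One deterministic Turing machine, given the adjacency matrices of two simple graphs on `n`
vertices that encode strings `f, f'` indexed by the vector space `(ZMod p) ^ k`, decides in time
`n ^ o(log n)` if the graphs are isomorphic, that is, if the strings are isomorphic under
`GL(k, p)`. -/
theorem result :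
    ∃ (tm : Turing.FinTM2) (e₀ : tm.Γ tm.k₀ ≃ Bool) (e₁ : tm.Γ tm.k₁ ≃ Bool),
      (∀ k, Finite (tm.Γ k)) ∧ ∀ ε : ℝ, 0 < ε → ∃ C : ℝ,
        ∀ (p k m : ℕ) [Fact p.Prime], 1 ≤ k → ∀ (f f' : (Fin k → ZMod p) → Fin m → Bool) (n : ℕ)
          (G H : SimpleGraph (Fin n)), Nonempty (G ≃g arcGraph (StrArc f)) →
          Nonempty (H ≃g arcGraph (StrArc f')) →
          ∃ (t : ℕ) (b : Bool), (t : ℝ) ≤ C * (n : ℝ) ^ (ε * Real.logb 2 n) ∧
            Nonempty (Turing.TM2OutputsInTime tm ((adjBits G ++ adjBits H).map e₀.symm)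
              (Option.some ([b].map e₁.symm)) t) ∧
            (b = true ↔ Nonempty (G ≃g H)) ∧
            (b = true ↔ ∃ g : (Fin k → ZMod p) ≃ₗ[ZMod p] (Fin k → ZMod p), ∀ v, f' (g v) = f v) :=
  gfinal

end Pool.Agent.Results.MP_f1a348_lc.LinearStringIso
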