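import Mathlib
import Pool.Agent.P.MP_f1a348_lc.TO.All
import Pool.Agent.P.MP_f1a348_lc.TO.GFin

namespace Pool.Agent.Results.MP_f1a348_lc.TourIso

open Pool.Agent.P.MP_f1a348_lc.TO

/-- One deterministic Turing machine, given the adjacency matrices of two simple graphs on `n`
vertices that encode tournaments, decides in time `n ^ o(log n)` if the graphs are isomorphic,
that is, if the tournaments are isomorphic. -/
theorem result :
    ∃ (tm : Turing.FinTM2) (e₀ : tm.Γ tm.k₀ ≃ Bool) (e₁ : tm.Γ tm.k₁ ≃ Bool),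
      (∀ k, Finite (tm.Γ k)) ∧ ∀ ε : ℝ, 0 < ε → ∃ C : ℝ,
        ∀ (n : ℕ) (G H : SimpleGraph (Fin n)) (V W : Type) (S : V → V → Prop)
          (T : W → W → Prop), IsTour S → IsTour T →
          Nonempty (G ≃g arcGraph S) → Nonempty (H ≃g arcGraph T) →
          ∃ (t : ℕ) (b : Bool), (t : ℝ) ≤ C * (n : ℝ) ^ (ε * Real.logb 2 n) ∧
            Nonempty (Turing.TM2OutputsInTime tm ((adjBits G ++ adjBits H).map e₀.symm)
              (Option.some ([b].map e₁.symm)) t) ∧
            (b = true ↔ Nonempty (G ≃g H)) ∧ (b = true ↔ Nonempty (S ≃r T)) := by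
  obtain ⟨tr, h1⟩ := trx_of t_ETRPT t_ETRS t_ETRH t_EREC (game_of_gain gain)
  obtain ⟨cls, h2⟩ := t_WLX
  obtain ⟨mn, h3⟩ := t_MAINX t_EREC gain tr cls h1 h2
  exact gfinal h3 t_FTIME

end Pool.Agent.Results.MP_f1a348_lc.TourIso
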